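import Pool.Agent.H741.RS.Defs

/-!
# Project RS (MP_9c6456_an): statements with paper proofs

Result: for a finite group `G` of unitary maps of `ℂⁿ`, `n ≥ 1`, the least degree of a rational sphere map
with source group `G` is `1 + max 2 k`, `k` the least number with `Sep k G`.
Notation: `⟨z, w⟩ = hp z w` is linear in `z`, conjugate linear in `w`; `Z = (1, z)`; a kernel is
a function `u (z, w)` which is polynomial in `z` and in `w̄`.
-/

set_option autoImplicit false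
open scoped ComplexConjugate

namespace Pool.Agent.H741.RS

/-! ### Linear algebra -/

/-- Extension of isometries (Witt). Proof: `e = F x0` and `e' = F' x0` satisfy `J(e,e) = J(e',e') > 0`. There
are linear `T`, `T'` with `PresJ` which take `e`, `e'` to `(s, 0)`, `s = √J(e,e)` (first apply `(a, x) ↦ (c a, U x)`
with `|c| = 1` and `U` unitary to make `e = (a, b e₁)`, `a > |b|`, `b ≥ 0`, then a boost in the plane of the first two coordinates; if `N = 0` trivial).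
Replace `F` by `T F`, `F'` by `T' F'`. The first components of `T F x` and `T' F' x` are `J(TFx, (s,0))/s` and
`J(T'F'x, (s,0))/s`, so they are equal, hence the scalar products of the second components agree and there is
a unitary map of `V N` which takes the second component of `T F x` to that of `T' F' x` for all `x`
(define it on the span, `LinearIsometry.extend`). -/
def S_EXT : Prop := ∀ (N : ℕ) (X : Type) (F F' : X → ℂ × V N) (x0 : X),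
  (∀ x y, J (F x) (F y) = J (F' x) (F' y)) → 0 < (J (F x0) (F x0)).re →
  ∃ B : (ℂ × V N) →ₗ[ℂ] (ℂ × V N), PresJ B ∧ ∀ x, F' x = B (F x)

/-- Basic facts on maps which preserve `J`. Proof: `J` is nondegenerate, so `A` is injective, hence bijective, and the
inverse preserves `J`. For `‖z‖ < 1`, `J(Z,Z) = 1 - ‖z‖² > 0`, so `|A₁Z|² > ‖A₂Z‖²`. -/
def S_PRES : Prop := ∀ (n : ℕ) (A : (ℂ × V n) →ₗ[ℂ] (ℂ × V n)), PresJ A →
  (∃ A' : (ℂ × V n) →ₗ[ℂ] (ℂ × V n), PresJ A' ∧ A' ∘ₗ A = LinearMap.id ∧ A ∘ₗ A' = LinearMap.id) ∧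
  ∀ z ∈ Bn n, (A (1, z)).1 ≠ 0 ∧ frac A z ∈ Bn n ∧ A (1, z) = (A (1, z)).1 • ((1 : ℂ), frac A z) ∧
    (1 - ‖frac A z‖ ^ 2) * ‖(A (1, z)).1‖ ^ 2 = 1 - ‖z‖ ^ 2

/-- Proof: `A(1,0) = (a,0)` with `|a| = 1`; `J(A(0,x), A(1,0)) = 0` gives `A(0,x) = (0, L x)` with `‖L x‖ = ‖x‖`; take
`U = a⁻¹ L`. -/
def S_UNIT : Prop := ∀ (n : ℕ) (A : (ℂ × V n) →ₗ[ℂ] (ℂ × V n)), PresJ A → frac A 0 = 0 →
  ∃ (U : V n ≃ₗᵢ[ℂ] V n) (a : ℂ), ‖a‖ = 1 ∧ ∀ z, A (1, z) = (a, a • U z)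

/-- Proof: `B = A'⁻¹ A` satisfies `B(1,z) = l(z) (1,z)` for `z` in the ball. So `B(0,z) = (l(z) - l(0), l(z) z)`; replacing `z`
by `z/2` and using linearity, `l(z/2) = l(z)` if `z ≠ 0` and `l(z/2) - l(0) = (l(z) - l(0))/2`, so `l(z) = l(0)`. -/
def S_GLUE : Prop := ∀ (n : ℕ) (A A' : (ℂ × V n) →ₗ[ℂ] (ℂ × V n)), PresJ A → PresJ A' →
  (∀ z ∈ Bn n, frac A z = frac A' z) → ∃ c : ℂ, A = c • A'

/-- A criterion for elements of the source group. Proof: `S_EXT` with `X = Bn n`, `F = f.F`, `F' z = (A₁Z)^d • f.F (frac A z)`,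
`x0 = 0` (`f.maps` gives `J(f.F 0, f.F 0) > 0`). This gives `B`; take `ψ = frac B`. With `q = ev f.q`, `f.F w = q(w) • (1, f.map w)`
for `w` in the ball (`f.q_ne`), so `(A₁Z)^d q(frac A z) • (1, f.map (frac A z)) = q(z) • B (1, f.map z)`, and dividing the second
component by the first gives `f.map (frac A z) = frac B (f.map z)`. -/
def S_TOG : Prop := ∀ (n N : ℕ) (f : RSM n N) (d : ℕ) (A : (ℂ × V n) →ₗ[ℂ] (ℂ × V n)), PresJ A →
  (∀ z ∈ Bn n, ∀ w ∈ Bn n, (A (1, z)).1 ^ d * conj ((A (1, w)).1 ^ d) * J (f.F (frac A z)) (f.F (frac A w)) =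
    J (f.F z) (f.F w)) → InGamma f (frac A)

/-- Proof: `MvPolynomial (Fin n) ℂ` is a UFD (use a gcd monoid structure). `L_i gcd_j(R_j) ~ gcd_j(L_i R_j) = gcd_j(L_j R_i) ~ R_i gcd_j(L_j)`, so
`R_i` divides `L_i` for all `i` (`gcd_j(R_j)` is a unit); some `R_i` is not zero, `L_i = lam R_i`, and `lam R_i R_j = L_i R_j = L_j R_i`
gives `L_j = lam R_j`. -/
def S_UFD : Prop := ∀ (n m : ℕ) (L R : Fin m → MvPolynomial (Fin n) ℂ), (∀ i j, L i * R j = L j * R i) →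
  (∀ r, (∀ i, r ∣ R i) → IsUnit r) → ∃ lam, ∀ i, L i = lam * R i

/-! ### Kernels -/

/-- Powers of linear forms span the homogeneous polynomials. Proof: for monomials by the polarisation identity
`j! l₁ ⋯ l_j = ∑_{S ⊆ {1..j}} (-1)^(j - |S|) (∑_{i ∈ S} l_i)^j` with `l_i` coordinate functions, `∑_{i ∈ S} l_i = ⟨z, w_S⟩`. -/
def S_POW : Prop := ∀ (n j : ℕ) (P : MvPolynomial (Fin n) ℂ), P.IsHomogeneous j →
  ∃ (m : ℕ) (w : Fin m → V n) (c : Fin m → ℂ), ∀ z : V n, ev P z = ∑ i, c i * hp z (w i) ^ j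

/-- Closure properties of kernels. -/
def S_KCL : Prop := ∀ (n k l : ℕ),
  (∀ u v : V n → V n → ℂ, Ker k l u → Ker k l v → ∀ c : ℂ, Ker k l (fun z w => u z w + c * v z w)) ∧
  (∀ (u : V n → V n → ℂ) (U : V n ≃ₗᵢ[ℂ] V n), Ker k l u → Ker k l (fun z w => u (U z) (U w))) ∧
  (∀ (u : V n → V n → ℂ) (k' l' : ℕ), k ≤ k' → l ≤ l' → Ker k l u → Ker k' l' u) ∧
  (∀ (u v : V n → V n → ℂ) (k' l' : ℕ), Ker k l u → Ker k' l' v → Ker (k + k') (l + l') (fun z w => u z w * v z w)) ∧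
  (∀ h : V n →L[ℂ] V n, Ker 1 1 (fun z w : V n => hp (h z) w)) ∧
  Ker k k (u0 k : V n → V n → ℂ) ∧
  (∀ u : V n → V n → ℂ, AKer k u → Ker k k u)

/-- Identity theorem. Proof: for fixed `w` both sides are polynomials in `z`, which are equal for all `z` if they are equal on the
ball; then the same for the conjugates as polynomials in `w`. On the ball `1 - ⟨z, w⟩ ≠ 0`. -/
def S_PID : Prop := ∀ (n k : ℕ) (u v : V n → V n → ℂ), Ker k k u → Ker k k v →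
  ((∀ z ∈ Bn n, ∀ w ∈ Bn n, u z w = v z w) ∨ (∀ z w, (1 - hp z w) * u z w = (1 - hp z w) * v z w)) →
  ∀ z w, u z w = v z w

/-- Division by `1 - ⟨z, w⟩`. Proof: Let `d = f.deg`, `H z w = J (f.F z) (f.F w) = ∑_{i,j ≤ d} H_{ij}` with `H_{ij}` of bidegree `(i,j)`. On the sphere
`‖z‖ = 1`, `H(z,z) = 0`; replacing `z` by `e^{it} z` the sum of the `H_{ij}(z,z)` with fixed `i - j = m` vanishes. Multiplying
by powers of `‖z‖²`: for `m ≥ 0` (`i = j + m`, `j ≤ D := d - m`), `∑_j H_{j+m,j}(z,z) ‖z‖^(2(D-j)) = 0` for all `z` in `ℂⁿ` (by homogeneity), similarly for `m < 0`. A kernel `K(z,w)` which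
vanishes for `w = z` vanishes identically (polynomial in `z, z̄`), so `∑_j H_{j+m,j}(z,w) ⟨z,w⟩^(D-j) = 0`. Then
`∑_j H_{j+m,j} = ∑_j H_{j+m,j} (1 - ⟨z,w⟩^(D-j)) = (1 - ⟨z,w⟩) ∑_j H_{j+m,j} ∑_{l < D-j} ⟨z,w⟩^l`, and the last kernel has degree at most
`d - 1` in `z` and in `w̄`. `u` is Hermitian since `H` is and by the identity theorem. `f.deg ≥ 1`: otherwise `H` is a constant, which is zero because of the sphere (`n ≥ 1`)
and not zero because of `f.maps`. -/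
def S_DIVI : Prop := ∀ (n N : ℕ) (f : RSM n N), 1 ≤ n → 1 ≤ f.deg ∧
  ∃ u : V n → V n → ℂ, Ker (f.deg - 1) (f.deg - 1) u ∧ Herm u ∧
    ∀ z w, J (f.F z) (f.F w) = (1 - hp z w) * u z w

/-- Proof: `Comb` with `P = ⟨·, w⟩^j`, `j ≤ k`: `⟨Uz, w⟩^j = ∑ c_g ⟨g z, w⟩^j`, that is, `⟨z, U⁻¹w⟩^j = ∑ c_g ⟨z, g⁻¹w⟩^j`; conjugate:
`⟨U⁻¹w, z⟩^j = ∑ conj c_g ⟨g⁻¹w, z⟩^j`, the claim for `P = ⟨·, z⟩^j`. By `S_POW` these span the polynomials of degree at most `k`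
(decompose into homogeneous components). -/
def S_ADJ : Prop := ∀ (n k : ℕ) (G : Subgroup (V n ≃ₗᵢ[ℂ] V n)) (_ : Fintype G) (U : V n ≃ₗᵢ[ℂ] V n) (c : G → ℂ),
  Comb k G U c → ∀ P : MvPolynomial (Fin n) ℂ, P.totalDegree ≤ k → ∀ z : V n,
    ev P (U.symm z) = ∑ g : G, conj (c g) * ev P (g.1.symm z)

/-- Proof: `u(Uz,Uw) = ∑ c_g u(gz,Uw)` (`u(·, Uw)` is a polynomial of degree `≤ k`) `= ∑ c_g u(z, g⁻¹Uw)` (invariance)
`= conj ∑ conj(c_g) Q(g⁻¹(Uw)) = conj Q(U⁻¹Uw) = u(z,w)` with `Q(w) = conj u(z,w)` by `S_ADJ`. -/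
def S_KINV : Prop := ∀ (n k : ℕ) (G : Subgroup (V n ≃ₗᵢ[ℂ] V n)) (_ : Fintype G) (U : V n ≃ₗᵢ[ℂ] V n) (c : G → ℂ)
  (u : V n → V n → ℂ), Comb k G U c → Ker k k u → (∀ g ∈ G, Inv u g) → Inv u U

/-! ### Lower bound -/

/-- Proof: `ψ = frac B`. Let `L` and `R` be the vectors of the `N + 1` polynomials which are the components of `f.F (U z)` and of `B (f.F z)`.
For `z` in the ball `L(z)` and `R(z)` are proportional, `L_i R_j = L_j R_i`, so this holds identically. The components of `R` have no common factor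
(`B` is invertible, `f.lowest`). By `S_UFD` `L = lam R`. The maximum of the degrees of the `L_i` and that of the `R_i` are both `f.deg`
(`U` and `B` are invertible), and some `L_i` is not zero, so `lam` is a constant. So `J(F(Uz), F(Uw)) = |lam|² J(F z, F w)`. Iterating `m` times, `|lam|^(2m) J(F 0, F 0) = J(F 0, F 0) ≠ 0`,
`|lam| = 1`. -/
def S_INVF : Prop := ∀ (n N : ℕ) (f : RSM n N) (U : V n ≃ₗᵢ[ℂ] V n) (m : ℕ), 1 ≤ m → U ^ m = 1 →
  InGamma f (fun z => U z) → ∀ z w, J (f.F (U z)) (f.F (U w)) = J (f.F z) (f.F w)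

/-- Proof: `u` from `S_DIVI`, `k = f.deg - 1`. For `g` in `G`: `InGamma f g` (from `SourceGroup`, right to left), and `g^(card G) = 1`, so `S_INVF` and `S_PID`
(with `S_KCL`) give `Inv u g`. If `Comb k G U c`, `S_KINV` gives `Inv u U`, so `J(F(Uz),F(Uw)) = J(F z, F w)`, and `S_TOG` with `d = 0`, `A (a, x) = (a, U x)` gives
`InGamma f (frac A)`, `frac A z = U z`. By `SourceGroup` some `U'` in `G` agrees with `U` on the ball, so `U = U'`. -/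
def S_LOW1 : Prop := ∀ (n N : ℕ) (f : RSM n N) (G : Subgroup (V n ≃ₗᵢ[ℂ] V n)) (_ : Fintype G), 1 ≤ n →
  SourceGroup f G → Sep (f.deg - 1) G

/-- Cayley transforms. Proof: for large real `t`, `X - i t` and `X + i t` are invertible; put `A_t = (X + i t) (X - i t)⁻¹`. As `J((X + i t) a, b) = J(a, (X - i t) b)`,
`A_t` preserves `J`; it commutes with `X`. If `A_t = c A_s` then `(X + i t)(X - i s) = c (X - i t)(X + i s)`, that is
`(1 - c) X² + i (t - s)(1 + c) X + t s (1 - c) = 0`. If `c = 1` and `t ≠ s` then `X = 0`, scalar. If `c ≠ 1` then `X` satisfies a monic quadratic equation with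
constant term `t s`; as `X` is not scalar this quadratic polynomial is the minimal polynomial of `X`, so `t s` is a constant `m0` which only depends on `X` (if any such relation exists). So for `t ∈ {t0 + m}`, `t0 > 0` with `t0² > |m0|`, the `A_t` are pairwise not
proportional. -/
def S_CAY : Prop := ∀ (n : ℕ) (X : (ℂ × V n) →ₗ[ℂ] (ℂ × V n)), (∀ a b, J (X a) b = J a (X b)) →
  (¬ ∃ c : ℂ, X = c • LinearMap.id) → ∃ A : ℕ → ((ℂ × V n) →ₗ[ℂ] (ℂ × V n)),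
    (∀ m, PresJ (A m)) ∧ (∀ m, A m ∘ₗ X = X ∘ₗ A m) ∧ ∀ m m', m ≠ m' → ¬ ∃ c : ℂ, A m = c • A m'

/-- Proof: suppose `f.deg ≤ 2`. By `S_DIVI`, `J(F z, F w) = (1 - ⟨z,w⟩) u(z,w)` with `u` Hermitian and `Ker 1 1 u`. So `u(z,w) = M(Z,W)` for a Hermitian form `M` on `ℂ × ℂⁿ` and `Z = (1,z)`, `W = (1,w)`, and
`M(a,b) = J(X a, b)` for a linear `X` with `J(X a, b) = J(a, X b)`. If `A` preserves `J` and commutes with `X` it preserves `M`, so with `A Z = A₁Z • (1, frac A z)` (`S_PRES`)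
`(A₁Z)² conj(A₁W)² J(F(frac A z), F(frac A w)) = J(AZ, AW) M(AZ, AW) = J(Z,W) M(Z,W) = J(F z, F w)`, and `frac A` is in the source group by `S_TOG` (`d = 2`). If `X` is not scalar take the maps `A m` of `S_CAY`
for `X`; if `X` is scalar every `A` commutes with `X`, take those of `S_CAY` for `(a, x) ↦ (a, 0)` (not scalar as `n ≥ 1`). The `frac (A m)` are pairwise different on the ball by `S_GLUE`, but each of them
is on the ball equal to an element of the finite group `G`: contradiction. -/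
def S_DEG2 : Prop := ∀ (n N : ℕ) (f : RSM n N) (G : Subgroup (V n ≃ₗᵢ[ℂ] V n)) (_ : Fintype G), 1 ≤ n →
  SourceGroup f G → 3 ≤ f.deg

/-! ### A kernel with symmetry group `G` -/

/-- Proof: among the self-adjoint operators which commute with `G` choose `h` with the maximal number of distinct eigenvalues. Let `Y` commute with `G` and `h`; so do its self-adjoint
parts `(Y + Y*)/2`, `(Y - Y*)/(2i)` (`G` consists of unitary maps, `h` is self-adjoint); let `Y` be self-adjoint. If `Y` is not scalar on some eigenspace of `h` then `h + ε Y` has more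
distinct eigenvalues for small `ε > 0`. So `Y` is scalar on each eigenspace of `h`, which every `Z` commuting with `h` preserves; so `Z Y = Y Z`. -/
def S_GOOD : Prop := ∀ (n : ℕ) (G : Subgroup (V n ≃ₗᵢ[ℂ] V n)) (_ : Fintype G), ∃ h : V n →L[ℂ] V n, Good G h

/-- Orbits are immersed. Proof: suppose not: there are `U_m` commuting with `h` such that `‖U_m S⁻¹ - 1‖ > m ‖ρ(U_m) x - x‖` for all `S` in `S(x) = {S : Cm h S, ρ(S) x = x}`. By compactness of the unitary group `S(x)` is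
compact and there is a nearest `S_m` in `S(x)`: `‖U_m S_m⁻¹ - 1‖ = min_S ‖U_m S⁻¹ - 1‖ =: d_m` (the norm is invariant, `‖U S⁻¹ - 1‖ = ‖U - S‖`); `ρ(U_m)x - x → 0` as `d_m ≤ 2`, so `d_m → 0` (a limit point of `U_m` is in `S(x)`). Replace `U_m` by `U_m S_m⁻¹` (this does not change `ρ(U_m) x`). So `U_m → 1`, `‖U_m - 1‖ = d_m > 0` is the distance of
`U_m` to `S(x)`, and `‖ρ(U_m)x - x‖ < d_m / m`. Pass to a subsequence with `(U_m - 1)/d_m → Y`; `Y` is skew-adjoint (`(U - 1) + (U - 1)* = -(U-1)*(U-1)`), commutes with `h`, and `D(Y) x = 0` by `R.hD`.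
Then `s ↦ ρ(exp(sY)) x` is constant (`ρ(exp((s+e)Y))x - ρ(exp(sY))x = ρ(exp(sY))(ρ(exp(eY))x - x) = o(e)`), so `exp(d_m Y)` is in `S(x)`, but `‖U_m - exp(d_m Y)‖ = o(d_m)`, a contradiction. -/
def S_DIST : Prop := ∀ (n : ℕ) (E : Type) (_ : NormedAddCommGroup E) (_ : InnerProductSpace ℝ E)
  (_ : FiniteDimensional ℝ E) (R : Rep n E) (h : V n →L[ℂ] V n) (x : E), (∀ z w, hp (h z) w = hp z (h w)) →
  ∃ K : ℝ, 0 ≤ K ∧ ∀ U : V n ≃ₗᵢ[ℂ] V n, Cm h U → ∃ S : V n ≃ₗᵢ[ℂ] V n, Cm h S ∧ R.ρ S x = x ∧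
    ‖((U * S⁻¹ : V n ≃ₗᵢ[ℂ] V n) : V n →L[ℂ] V n) - ContinuousLinearMap.id ℂ (V n)‖ ≤ K * ‖R.ρ U x - x‖

/-- Equivariance of the derivative. Proof: `ρ(g exp(sY) g⁻¹) = ρ(g) ρ(exp(sY)) ρ(g)⁻¹`, `exp(sY)` is unitary as `Y` is skew-adjoint; compare the terms of first order in `s` (`R.hD`). -/
def S_EQUI : Prop := ∀ (n : ℕ) (E : Type) (_ : NormedAddCommGroup E) (_ : InnerProductSpace ℝ E)
  (_ : FiniteDimensional ℝ E) (R : Rep n E) (Y : V n →L[ℂ] V n) (g : V n ≃ₗᵢ[ℂ] V n) (x : E), (∀ z w, hp (Y z) w = - hp z (Y w)) →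
  R.D ((g : V n →L[ℂ] V n) ∘L Y ∘L ((g⁻¹ : V n ≃ₗᵢ[ℂ] V n) : V n →L[ℂ] V n)) (R.ρ g x) = R.ρ g (R.D Y x)

/-- Proof: let `Y = (U - U⁻¹)/2`; it is skew-adjoint and commutes with `h`, and `U - 1 - Y = (U + U⁻¹)/2 - 1 = U⁻¹(U - 1)²/2` has norm at most `‖U - 1‖²/2`. So `ρ(U)x - x = D(Y) x + O(‖U - 1‖²)`
(`R.hD`, and `R.D` is a bounded linear map as the spaces are finite-dimensional). By `S_EQUI`, `⟨D(g Y g⁻¹) x, w⟩ = ⟨ρ(g) D(Y) ρ(g)⁻¹ x, w⟩ = ⟨D(Y) x, w⟩` for `g` in `G`, so `⟨D(Y)x, w⟩ = ⟨D(Y')x, w⟩` where `Y'` is the average of the `g Y g⁻¹`,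
which is skew-adjoint and commutes with `G` and `h`; this is zero by hypothesis. -/
def S_QUAD : Prop := ∀ (n : ℕ) (G : Subgroup (V n ≃ₗᵢ[ℂ] V n)) (_ : Fintype G) (h : V n →L[ℂ] V n), Good G h →
  ∀ (E : Type) (_ : NormedAddCommGroup E) (_ : InnerProductSpace ℝ E)
  (_ : FiniteDimensional ℝ E) (R : Rep n E) (x w : E), (∀ g ∈ G, R.ρ g x = x ∧ R.ρ g w = w) →
  (∀ Y : V n →L[ℂ] V n, (∀ z w, hp (Y z) w = - hp z (Y w)) → (∀ g ∈ G, ∀ z, Y (g z) = g (Y z)) → Y ∘L h = h ∘L Y →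
    inner ℝ (R.D Y x) w = 0) →
  ∃ K : ℝ, 0 ≤ K ∧ ∀ U : V n ≃ₗᵢ[ℂ] V n, Cm h U →
    |inner ℝ (R.ρ U x - x) w| ≤ K * ‖(U : V n →L[ℂ] V n) - ContinuousLinearMap.id ℂ (V n)‖ ^ 2

/-- Proof: let `Fix` be the space of vectors fixed by `G`, `S(x) = {U : Cm h U, ρ(U)x = x}` and `F_x = {w ∈ Fix : ρ(U)w = w for U ∈ S(x)}`, a subspace. Choose `x` in `Fix` with `F_x` of the greatest
dimension. Suppose `F_x ≠ Fix`; let `w ≠ 0` in `Fix` be orthogonal to `F_x`. If `Y` is skew-adjoint and commutes with `G` and `h` then by `Good.mx` it commutes with all `U` with `Cm h U`, so by `S_EQUI` `D(Y)x` is in `F_x`, and `⟨D(Y)x, w⟩ = 0`. Let `K`, `K'` be the constants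
of `S_DIST` and `S_QUAD`. Let `t > 0` and `U` in `S(x + t w)`. Then `ρ(U)x - x = -t(ρ(U)w - w)`, and `|⟨ρ(U)x - x, w⟩| = t |⟨ρ(U)w - w, w⟩| = (t/2) ‖ρ(U)w - w‖²`. With `S` from `S_DIST` and `U' = U S⁻¹`, `ρ(U')x = ρ(U)x`, and by `S_QUAD`
`|⟨ρ(U)x - x, w⟩| ≤ K' ‖U' - 1‖² ≤ K' K² ‖ρ(U)x - x‖² = K' K² t² ‖ρ(U)w - w‖²`. If `t (2 K' K² + 1) < 1` this gives `ρ(U)w = w`, hence `ρ(U)x = x`. So `S(x + t w) ⊆ S(x) ∩ S(w)`, and `F_{x+tw}` contains `F_x` and `w`: contradiction. -/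
def S_SLICE : Prop := ∀ (n : ℕ) (G : Subgroup (V n ≃ₗᵢ[ℂ] V n)) (_ : Fintype G) (h : V n →L[ℂ] V n), Good G h →
  ∀ (E : Type) (_ : NormedAddCommGroup E) (_ : InnerProductSpace ℝ E) (_ : FiniteDimensional ℝ E) (R : Rep n E),
  ∃ x : E, (∀ g ∈ G, R.ρ g x = x) ∧ ∀ U : V n ≃ₗᵢ[ℂ] V n, Cm h U → R.ρ U x = x →
    ∀ w : E, (∀ g ∈ G, R.ρ g w = w) → R.ρ U w = w

/-- The representation of the unitary group on kernels. Proof: `E` = the real vector space of the Hermitian kernels `u` with `AKer k u` (finite-dimensional: it is contained in the span of the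
`z^α conj(w)^β`, `|α|, |β| ≤ k`), `(ρ(U)u)(z,w) = u(U⁻¹z, U⁻¹w)`, with the scalar product `Re ∫∫ u(z,w) conj(v(z,w)) dz dw` over the product of two unit balls (unitary maps preserve the volume; positive since a
polynomial kernel vanishing on the balls is zero) [any other invariant scalar product will do]. The derivative: `(D(T)u)(z,w) = d/ds u(z - sTz, w - sTw)` at `s = 0`; for unitary `U = 1 + T`,
`U⁻¹ = 1 - T + O(‖T‖²)`, and all terms of order at least 2 are bounded by `C ‖T‖²` times a norm of `u` since `‖T‖ ≤ 2`. It may be convenient to work with coefficient matrices. -/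
def S_REPK : Prop := ∀ n k : ℕ, ∃ (E : Type) (_ : NormedAddCommGroup E) (_ : InnerProductSpace ℝ E)
  (_ : FiniteDimensional ℝ E) (R : Rep n E) (κ : E →ₗ[ℝ] (V n → V n → ℂ)), Function.Injective κ ∧
  (∀ x, Herm (κ x) ∧ AKer k (κ x)) ∧ (∀ u : V n → V n → ℂ, Herm u → AKer k u → ∃ x, κ x = u) ∧
  ∀ (U : V n ≃ₗᵢ[ℂ] V n) (x : E) (z w : V n), κ (R.ρ U x) (U z) (U w) = κ x z w

/-- Proof: it suffices to treat homogeneous `a`, `b` of degrees `i, j ≤ k`. Let `κ z w` be the right side, a `G`-invariant kernel of bidegree `(i,j)`. If `(i,j)` is not one of `(0,1)`, `(1,0)`, `(1,1)`: the kernels `κ(z,w) + conj κ(w,z)` and `i (κ(z,w) - conj κ(w,z))` are Hermitian, `G`-invariant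
and `AKer k`, so they are `U`-invariant and so is `κ`. Otherwise apply this to the kernel `κ(z,w) ⟨z,w⟩` of bidegree `(i+1,j+1)`, `i + 1, j + 1 ≤ 2 ≤ k` and cancel `⟨z,w⟩` (`κ(Uz,Uw)⟨z,w⟩ = κ(z,w)⟨z,w⟩`; both sides polynomial, `⟨z,w⟩` is not zero on a dense set). -/
def S_MISS : Prop := ∀ (n k : ℕ) (G : Subgroup (V n ≃ₗᵢ[ℂ] V n)) (_ : Fintype G) (U : V n ≃ₗᵢ[ℂ] V n), 1 ≤ n → 2 ≤ k →
  (∀ u : V n → V n → ℂ, Herm u → AKer k u → (∀ g ∈ G, Inv u g) → Inv u U) →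
  ∀ a b : MvPolynomial (Fin n) ℂ, a.totalDegree ≤ k → b.totalDegree ≤ k → ∀ z w : V n,
    ∑ g : G, ev a (g.1 (U z)) * conj (ev b (g.1 (U w))) = ∑ g : G, ev a (g.1 z) * conj (ev b (g.1 w))

/-- Proof: let `Q ⊆ ℂ^G` be the span of the vectors `(conj (b(g U w)))_g`, `b` of degree `≤ k`, `w` in `ℂⁿ`, and write the indicator of `1 ∈ G` as `e = r + r'`, `r` in `Q`, `r'` orthogonal to `Q`, that is `∑_g r'_g b(g y) = 0` for all
`b` of degree `≤ k` and all `y` (every `y` is `U w`). So for `a` of degree `≤ k`: `a(Uz) = ∑_g e_g a(gUz) = ∑_g r_g a(gUz)`. Write `r_g = ∑_j conj(b_j(g U w_j))` (scalars absorbed in `b_j`); then by hypothesis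
`a(Uz) = ∑_j ∑_g conj(b_j(gUw_j)) a(gUz) = ∑_j ∑_g conj(b_j(g w_j)) a(gz) = ∑_g c_g a(gz)`, with `c_g = ∑_j conj(b_j(g w_j))` independent of `a` and `z`. -/
def S_BIC : Prop := ∀ (n k : ℕ) (G : Subgroup (V n ≃ₗᵢ[ℂ] V n)) (_ : Fintype G) (U : V n ≃ₗᵢ[ℂ] V n),
  (∀ a b : MvPolynomial (Fin n) ℂ, a.totalDegree ≤ k → b.totalDegree ≤ k → ∀ z w : V n,
    ∑ g : G, ev a (g.1 (U z)) * conj (ev b (g.1 (U w))) = ∑ g : G, ev a (g.1 z) * conj (ev b (g.1 w))) →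
  ∃ c : G → ℂ, Comb k G U c

/-- Proof: `h` from `S_GOOD`, `E`, `R`, `κ` from `S_REPK`, `x` from `S_SLICE`, `v0 = κ x`. Let `Cm h U` and `Inv v0 U`: then `κ(ρ(U)x) = κ x` (evaluate at `U z`, `U w`), so `ρ(U) x = x`, so `ρ(U)` fixes all `G`-fixed vectors,
that is, `Inv u U` for all Hermitian `u` with `AKer k u` which are `G`-invariant. By `S_MISS`, `S_BIC` and `Sep k G`, `U` is in `G`. -/
def S_GEN : Prop := ∀ (n k : ℕ) (G : Subgroup (V n ≃ₗᵢ[ℂ] V n)) (_ : Fintype G), 1 ≤ n → 2 ≤ k → Sep k G →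
  ∃ (h : V n →L[ℂ] V n) (v0 : V n → V n → ℂ), (∀ z w, hp (h z) w = hp z (h w)) ∧ Herm v0 ∧ AKer k v0 ∧
    (∀ g ∈ G, Inv v0 g ∧ Cm h g) ∧ ∀ U : V n ≃ₗᵢ[ℂ] V n, Cm h U → Inv v0 U → U ∈ G

/-! ### Upper bound -/

/-- Proof: with `c_j = 1/(j+2)`, `t = ⟨z,w⟩`: `1 - (1 - t) u0 = (1 - c_0) + ∑_{j=1}^k (c_{j-1} - c_j) t^j + c_k t^(k+1)` has positive coefficients, and `t^j = ∑_{|α| = j} (j!/α!) z^α conj(w)^α`; so its matrix in the monomials
`z^α`, `|α| ≤ k + 1`, is diagonal with positive entries. The matrix of `(1 - ⟨z,w⟩) v(z,w)` is Hermitian, so for small `ε` the matrix `M` of the right side is positive definite, `M = B*B`-type factorisation gives the `p_i`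
(`N` = number of the monomials). Some `p_i` has degree exactly `k + 1` since the diagonal entry of `M` at a monomial of degree `k + 1` is not zero (`n ≥ 1`). -/
def S_POS : Prop := ∀ (n k : ℕ) (v : V n → V n → ℂ), 1 ≤ n → Herm v → Ker k k v → ∃ ε0 : ℝ, 0 < ε0 ∧
  ∀ ε : ℝ, 0 < ε → ε < ε0 → ∃ (N : ℕ) (p : Fin N → MvPolynomial (Fin n) ℂ),
    (∀ i, (p i).totalDegree ≤ k + 1) ∧ (∃ i, (p i).totalDegree = k + 1) ∧
    ∀ z w, ∑ i, ev (p i) z * conj (ev (p i) w) = 1 - (1 - hp z w) * (u0 k z w + ε * v z w)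

/-- Proof: let `r = ‖z‖² < 1`, `u(z) = u0 k z z + ε (v0 z z + ⟨h z, z⟩)` (real). `u(0) = 1/2 + ε v0(0,0)`. `u0 k z z = ∑ c_j r^j ≥ 1/2 + r/3`. Since `v0` has no components of bidegree `(0,1)`, `(1,0)`, `|v0(z,z) - v0(0,0)| ≤ C r` on the ball, and `|(1 - r)^k - 1| ≤ k r`.
So `u(z) - (1 - r)^k u(0) ≥ (1/2)(1 - (1-r)^k) + r/3 - ε C' r > 0` for `r > 0` if `ε C' < 1/3`. -/
def S_MIN : Prop := ∀ (n k : ℕ) (h : V n →L[ℂ] V n) (v0 : V n → V n → ℂ), 2 ≤ k → (∀ z w, hp (h z) w = hp z (h w)) →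
  Herm v0 → AKer k v0 → ∃ ε0 : ℝ, 0 < ε0 ∧ ∀ ε : ℝ, 0 < ε → ε < ε0 →
    0 < (u0 k (0 : V n) 0 + ε * v0 0 0).re ∧
    ∀ z : V n, z ≠ 0 → ‖z‖ < 1 → (1 - ‖z‖ ^ 2) ^ k * (u0 k (0 : V n) 0 + ε * v0 0 0).re <
      (u0 k z z + ε * (v0 z z + hp (h z) z)).re

/-- Proof: for `‖z‖ ≥ 1`, `u0 k z z ≥ ‖z‖^(2k)/(k+2)` and `|v z z| ≤ C ‖z‖^(2k)`, so for small `ε` the real part is at least `2 + (‖z‖² - 1) ‖z‖^(2k)/(2(k+2))`. -/
def S_BIG : Prop := ∀ (n k : ℕ) (v : V n → V n → ℂ), Herm v → Ker k k v → ∃ ε0 : ℝ, 0 < ε0 ∧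
  ∀ ε : ℝ, 0 < ε → ε < ε0 → ∃ c : ℝ, 0 < c ∧ ∀ z : V n, 1 ≤ ‖z‖ →
    c * ‖z‖ ^ (2 * (k + 1)) ≤ (2 - (1 - hp z z) * (u0 k z z + ε * v z z)).re

/-- Proof: `q = 1`. -/
def S_MKF : Prop := ∀ (n N k : ℕ) (p : Fin N → MvPolynomial (Fin n) ℂ) (u : V n → V n → ℂ),
  (∀ i, (p i).totalDegree ≤ k + 1) → (∃ i, (p i).totalDegree = k + 1) →
  (∀ z w, ∑ i, ev (p i) z * conj (ev (p i) w) = 1 - (1 - hp z w) * u z w) → (∀ z ∈ Bn n, 0 < (u z z).re) →
  ∃ f : RSM n N, f.q = 1 ∧ f.p = p ∧ f.deg = k + 1 ∧ ∀ z w, J (f.F z) (f.F w) = (1 - hp z w) * u z w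

/-- Proof: there are polynomials `L_0, ..., L_N` of degree `≤ k + 1` whose values on the ball are the components of `(A₁Z)^(k+1) • F(frac A z)` (homogenise: replace `z^α` by `(A₁Z)^(k+1-|α|) ∏ (A₂Z)_i^{α_i}`), and polynomials `R_i` for the components of
`B(F z)`. On the ball the two vectors are proportional (`f.map (frac A z) = frac B (f.map z)`), so `L_i R_j = L_j R_i` identically. The `R_i` have no common factor, since `B` is invertible and `f.q = 1`. By `S_UFD`, `L = lam R`. For `‖z‖ ≥ 1`, `‖L(z)‖ ≤ C ‖z‖^(k+1)` and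
`‖R(z)‖ ≥ c' ‖F(z)‖ ≥ c'' ‖z‖^(k+1)`; so `lam` is bounded, hence constant. -/
def S_LAM : Prop := ∀ (n N k : ℕ) (f : RSM n N) (A : (ℂ × V n) →ₗ[ℂ] (ℂ × V n)) (B : (ℂ × V N) →ₗ[ℂ] (ℂ × V N)) (c0 : ℝ),
  1 ≤ n → 0 < c0 → f.q = 1 → f.deg = k + 1 → PresJ A → PresJ B →
  (∀ z ∈ Bn n, f.map (frac A z) = frac B (f.map z)) →
  (∀ z : V n, 1 ≤ ‖z‖ → c0 * ‖z‖ ^ (2 * (k + 1)) ≤ 1 + ∑ i, ‖ev (f.p i) z‖ ^ 2) →
  ∃ c : ℂ, ∀ z ∈ Bn n, (A (1, z)).1 ^ (k + 1) • f.F (frac A z) = c • B (f.F z)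

/-- Proof: `h`, `v0` from `S_GEN`, `v z w = v0 z w + ⟨h z, w⟩`, which is Hermitian and `Ker k k` (`S_KCL`), `ε` small for `S_POS`, `S_MIN`, `S_BIG`, `u = u0 k + ε v`, `f` from `S_MKF` (`u(z,z) > 0` on the ball by `S_MIN`), `f.deg = k + 1`. Let `s(z) = (u z z).re`.
`SourceGroup`, right to left: for `U` in `G`, `u(Uz,Uw) = u(z,w)`, so `J(F(Uz),F(Uw)) = J(F z,F w)`; `S_TOG` with `A(a,x) = (a,Ux)`, `d = 0`; a `γ` which agrees with `U` on the ball is in the source group as well. Left to right: let `γ = frac A` and `ψ = frac B` on the balls (`f.map z` is in the ball by `f.maps`), `a(z) = A₁Z`.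
By `S_LAM` (constant from `S_BIG`: `1 + ∑ |p_i|² = 2 - (1 - ‖z‖²) s(z)`), `a(z)^(k+1) F(frac A z) = c B(F z)`, so `a(z)^(k+1) conj(a(w))^(k+1) J(F(frac A z), F(frac A w)) = |c|² J(F z, F w)` on the ball. With `J(F z, F w) = (1 - ⟨z,w⟩) u(z,w)` and
`a(z) conj(a(w)) (1 - ⟨frac A z, frac A w⟩) = 1 - ⟨z,w⟩ ≠ 0`: `a(z)^k conj(a(w))^k u(frac A z, frac A w) = |c|² u(z,w)`. Put `Φ(z) = s(z)/(1 - ‖z‖²)^k`. By `S_PRES`, `Φ(frac A z) = |c|² Φ(z)`, and by `S_MIN`, `Φ(z) > Φ(0) > 0` for `z ≠ 0` in the ball.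
`z = 0`: `|c|² Φ(0) = Φ(frac A 0) ≥ Φ(0)`. `z = frac A' 0` with the inverse `A'` of `A` (`frac A (frac A' 0) = 0`): `Φ(0) = |c|² Φ(z) ≥ |c|² Φ(0)`. So `|c| = 1`, `Φ(frac A 0) = Φ(0)`, `frac A 0 = 0`. By `S_UNIT`, `a(z) = a`, `|a| = 1`, `frac A z = U z`. So `u(Uz,Uw) = u(z,w)` on the ball, hence everywhere (`S_PID`),
`v(Uz,Uw) = v(z,w)` (`u0` is invariant), and comparing the components of bidegree `(1,1)` (replace `(z,w)` by `(sz,tw)`, `s, t` real; `v0` has no such component) `⟨hUz,Uw⟩ = ⟨hz,w⟩`, so `Cm h U` and `Inv v0 U`, and `U` is in `G`. -/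
def S_UP : Prop := ∀ (n k : ℕ) (G : Subgroup (V n ≃ₗᵢ[ℂ] V n)) (_ : Fintype G), 1 ≤ n → 2 ≤ k → Sep k G →
  k + 1 ∈ Degs G

/-- Proof: (i) if `Comb (card G) G U c` and `U` is not in `G`, choose `z` with `U z ≠ g z` for all `g` in `G` (finitely many proper subspaces do not cover `ℂⁿ`) and a polynomial `P`, product of `card G` affine functions, with
`P(g z) = 0` for all `g` and `P(U z) ≠ 0`: contradiction. (ii) clear. (iii) constants: all unitary maps satisfy the condition for `k = 0` (`c_1 = 1`, the others `0`), and there are infinitely many unitary maps as `n ≥ 1`. -/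
def S_KG : Prop := ∀ (n : ℕ) (G : Subgroup (V n ≃ₗᵢ[ℂ] V n)) (_ : Fintype G), 1 ≤ n →
  Sep (Fintype.card G) G ∧ (∀ k, Sep k G → Sep (k + 1) G) ∧ ¬ Sep 0 G

end Pool.Agent.H741.RS
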