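import Pool.Agent.H741.RS.Defs

/-!
# The definitions of the final statement (MP_9c6456_an)

`V n`, `Bn n`, `ev`, `RSM`, `RSM.deg` and `RSM.map` are in `Pool.Agent.H741.RS.Defs`. Here: the holomorphic
automorphisms of the ball, the Hermitian source group, finite groups of unitary matrices.
-/

set_option autoImplicit false

namespace Pool.Agent.H741.RS

/-- `γ` restricts to a holomorphic automorphism of the ball `Bn n`: a holomorphic map of the ball to itself which
has a holomorphic inverse. (The values of `γ` outside of the ball do not matter.) -/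
def HolAut {n : ℕ} (γ : V n → V n) : Prop :=
  DifferentiableOn ℂ γ (Bn n) ∧ Set.MapsTo γ (Bn n) (Bn n) ∧
    ∃ δ : V n → V n, DifferentiableOn ℂ δ (Bn n) ∧ Set.MapsTo δ (Bn n) (Bn n) ∧
      ∀ z ∈ Bn n, δ (γ z) = z ∧ γ (δ z) = z

/-- `γ` is in the Hermitian source group of `f`: it is an automorphism of the ball of `ℂⁿ` and there is an
automorphism `ψ` of the ball of `ℂ^N` with `f ∘ γ = ψ ∘ f` on the ball -/
def InSource {n N : ℕ} (f : RSM n N) (γ : V n → V n) : Prop :=
  HolAut γ ∧ ∃ ψ : V N → V N, HolAut ψ ∧ ∀ z ∈ Bn n, f.map (γ z) = ψ (f.map z)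

/-- the product of the matrix `A` and the vector `z` -/
noncomputable def mv {n : ℕ} (A : Matrix (Fin n) (Fin n) ℂ) (z : V n) : V n :=
  WithLp.toLp 2 (A.mulVec z.ofLp)

/-- a finite group of unitary `n × n` matrices -/
structure FinU (n : ℕ) where
  /-- the elements of the group -/
  el : Finset (Matrix (Fin n) (Fin n) ℂ)
  unitary : ∀ A ∈ el, A ∈ Matrix.unitaryGroup (Fin n) ℂ
  one_mem : 1 ∈ el
  mul_mem : ∀ A ∈ el, ∀ B ∈ el, A * B ∈ el
  inv_mem : ∀ A ∈ el, A⁻¹ ∈ el

/-- the Hermitian source group of `f` is `G` -/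
def SourceIs {n N : ℕ} (f : RSM n N) (G : FinU n) : Prop :=
  ∀ γ : V n → V n, InSource f γ ↔ ∃ A ∈ G.el, ∀ z ∈ Bn n, γ z = mv A z

/-- the degrees of the rational sphere maps, with any target dimension `N`, with source group `G` -/
def DegsM {n : ℕ} (G : FinU n) : Set ℕ :=
  {d | ∃ (N : ℕ) (f : RSM n N), f.deg = d ∧ SourceIs f G}

/-- On the polynomials of degree at most `k`, the matrix `U` acts as a linear combination of the elements of
`G`: there are complex numbers `c A`, `A ∈ G`, with `P (U z) = ∑ c A * P (A z)` for all these `P` and all `z`. -/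
def CombM {n : ℕ} (k : ℕ) (G : FinU n) (U : Matrix (Fin n) (Fin n) ℂ) : Prop :=
  ∃ c : Matrix (Fin n) (Fin n) ℂ → ℂ, ∀ P : MvPolynomial (Fin n) ℂ, P.totalDegree ≤ k → ∀ z : V n,
    ev P (mv U z) = ∑ A ∈ G.el, c A * ev P (mv A z)

/-- The elements of `G` are the only unitary matrices which act on the polynomials of degree at most `k` as
linear combinations of elements of `G`. -/
def SepM {n : ℕ} (k : ℕ) (G : FinU n) : Prop :=
  ∀ U ∈ Matrix.unitaryGroup (Fin n) ℂ, CombM k G U → U ∈ G.el

/-! ### Statements for the transfer -/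

/-- automorphisms in the standard form are automorphisms. Proof: `frac A` maps the ball to itself and
`frac A'` is its inverse (`S_PRES`); it is a quotient of affine functions with nonzero denominators on the ball. -/
def S_HOLA : Prop := ∀ (n : ℕ) (γ : V n → V n), IsAut γ → HolAut γ

/-- Proof: (a) there is `A` with `PresJ A`, `frac A 0 = γ 0 =: a`: `S_EXT` with `X = Unit`, `F = (1, 0)`, `F' = (1, a) / √(1 - ‖a‖²)`. Let `A'` be its inverse (`S_PRES`)
and `g = frac A' ∘ γ`, an automorphism of the ball with `g 0 = 0`, `γ = frac A ∘ g` on the ball. (b) For `z ≠ 0` in the ball and `φ(t) = g (t z / ‖z‖)`, `|t| < 1`, the Schwarz lemma (`Complex.norm_dslope_le_div_of_mapsTo_ball`)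
gives `‖g z‖ ≤ ‖z‖`, and the same for the inverse, so `‖g z‖ = ‖z‖`. (c) By the equality case `Complex.affine_of_mapsTo_ball_of_exists_norm_dslope_eq_div` (`V n` is strictly convex) `g (t z) = t g z` for `|t| ≤ 1`; so `g z = D z` with
`D = fderiv ℂ g 0` (the derivative of `t ↦ g (t z)` at `0`). So `D` is a linear isometry, `(a, x) ↦ (a, D x)` preserves `J` and `γ = frac (A ∘ (id × D))`. -/
def S_HOLB : Prop := ∀ (n : ℕ) (γ : V n → V n), HolAut γ → IsAut γ

/-- unitary matrices and isometries. Proof: e.g. `Matrix.toEuclideanCLM` (a star-algebra isomorphism) and `Unitary.linearIsometryEquiv`. -/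
def S_MAT : Prop := ∀ n : ℕ, ∃ φ : (Matrix.unitaryGroup (Fin n) ℂ) ≃* (V n ≃ₗᵢ[ℂ] V n), ∀ A z, φ A z = mv A.1 z

end Pool.Agent.H741.RS
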