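import Pool.Agent.H741.RS.Stm

/-!
# Project RS: assembly of the main theorem
-/

set_option autoImplicit false

namespace Pool.Agent.H741.RS

theorem asm (h1 : S_LOW1) (h2 : S_DEG2) (h3 : S_UP) (h4 : S_KG)
    (n : ℕ) (hn : 1 ≤ n) (G : Subgroup (V n ≃ₗᵢ[ℂ] V n)) [Fintype G] :
    ∃ k : ℕ, 1 ≤ k ∧ k ≤ Fintype.card G ∧ IsLeast {k | Sep k G} k ∧ IsLeast (Degs G) (1 + max 2 k) := by
  classical
  obtain ⟨k1, k2, k3⟩ := h4 n G inferInstance hn
  have hex : ∃ k, Sep k G := ⟨_, k1⟩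
  have hmono : ∀ a b : ℕ, a ≤ b → Sep a G → Sep b G := by
    intro a b hab ha
    induction hab with
    | refl => exact ha
    | step _ ih => exact k2 _ ih
  refine ⟨Nat.find hex, ?_, Nat.find_min' hex k1, ⟨Nat.find_spec hex, fun m hm => Nat.find_min' hex hm⟩, ?_, ?_⟩
  · rcases Nat.eq_zero_or_pos (Nat.find hex) with h0 | h0
    · exact absurd (h0 ▸ Nat.find_spec hex) k3
    · exact h0
  · rw [add_comm]
    exact h3 n _ G inferInstance hn (le_max_left _ _) (hmono _ _ (le_max_right _ _) (Nat.find_spec hex))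
  · rintro d ⟨N, f, rfl, hf⟩
    have e1 := h1 n N f G inferInstance hn hf
    have e2 := h2 n N f G inferInstance hn hf
    have e3 := Nat.find_min' hex e1
    omega

end Pool.Agent.H741.RS
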