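import Mathlib

/-!
# Project RS (MP_9c6456_an): the least degree of a rational sphere map with a prescribed source group

`V n` is `ℂⁿ` with its Euclidean norm, `Bn n` the open unit ball. The group of holomorphic automorphisms of
the ball is used in its standard description as the group of the maps `z ↦ A₂(1, z) / A₁(1, z)` where
`A = (A₁, A₂)` is a linear map of `ℂ × ℂⁿ` which preserves the Hermitian form `a ā' - ⟨x, x'⟩`.
-/

set_option autoImplicit false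
open scoped ComplexConjugate

namespace Pool.Agent.H741.RS

/-- `ℂⁿ` with its Euclidean norm -/
abbrev V (n : ℕ) := EuclideanSpace ℂ (Fin n)

/-- the open unit ball of `ℂⁿ` -/
def Bn (n : ℕ) : Set (V n) := {z | ‖z‖ < 1}

/-- the value of the polynomial `P` at `z` -/
noncomputable def ev {n : ℕ} (P : MvPolynomial (Fin n) ℂ) (z : V n) : ℂ := MvPolynomial.eval (fun i => z i) P

/-- the Hermitian scalar product `z₁ w̄₁ + ... + zₙ w̄ₙ`, linear in `z` -/
noncomputable def hp {n : ℕ} (z w : V n) : ℂ := inner ℂ w z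

/-- the Hermitian form `a ā' - ⟨x, x'⟩` on `ℂ × ℂⁿ` -/
noncomputable def J {n : ℕ} (X Y : ℂ × V n) : ℂ := X.1 * conj Y.1 - hp X.2 Y.2

/-- `A` preserves the form `J` -/
def PresJ {n : ℕ} (A : (ℂ × V n) →ₗ[ℂ] (ℂ × V n)) : Prop := ∀ X Y, J (A X) (A Y) = J X Y

/-- the linear fractional map given by `A` -/
noncomputable def frac {n : ℕ} (A : (ℂ × V n) →ₗ[ℂ] (ℂ × V n)) (z : V n) : V n :=
  ((A (1, z)).1)⁻¹ • (A (1, z)).2

/-- `γ` is (on the ball) an automorphism of the ball `Bn n` -/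
def IsAut {n : ℕ} (γ : V n → V n) : Prop := ∃ A, PresJ A ∧ ∀ z ∈ Bn n, γ z = frac A z

/-- A rational sphere map `f = p / q` on `ℂⁿ` with values in `ℂ^N`: `p / q` is in lowest terms, `q` has no
zero in the closed unit ball, `‖p‖ = |q|` on the unit sphere and `‖p‖ < |q|` in the open ball (this excludes
the constants). -/
structure RSM (n N : ℕ) where
  /-- the numerators -/
  p : Fin N → MvPolynomial (Fin n) ℂ
  /-- the denominator -/
  q : MvPolynomial (Fin n) ℂ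
  lowest : ∀ r, r ∣ q → (∀ i, r ∣ p i) → IsUnit r
  q_ne : ∀ z : V n, ‖z‖ ≤ 1 → ev q z ≠ 0
  sphere : ∀ z : V n, ‖z‖ = 1 → ∑ i, ‖ev (p i) z‖ ^ 2 = ‖ev q z‖ ^ 2
  maps : ∀ z : V n, ‖z‖ < 1 → ∑ i, ‖ev (p i) z‖ ^ 2 < ‖ev q z‖ ^ 2

/-- the degree of `f = p / q` is the maximum of the degrees of `q` and of the `p i` -/
noncomputable def RSM.deg {n N : ℕ} (f : RSM n N) : ℕ :=
  max f.q.totalDegree (Finset.univ.sup fun i => (f.p i).totalDegree)

/-- the map `f` -/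
noncomputable def RSM.map {n N : ℕ} (f : RSM n N) (z : V n) : V N :=
  WithLp.toLp 2 fun i => ev (f.p i) z / ev f.q z

/-- the vector `(q, p)` -/
noncomputable def RSM.F {n N : ℕ} (f : RSM n N) (z : V n) : ℂ × V N :=
  (ev f.q z, WithLp.toLp 2 fun i => ev (f.p i) z)

/-- `γ` is in the Hermitian source group of `f` -/
def InGamma {n N : ℕ} (f : RSM n N) (γ : V n → V n) : Prop :=
  IsAut γ ∧ ∃ ψ : V N → V N, IsAut ψ ∧ ∀ z ∈ Bn n, f.map (γ z) = ψ (f.map z)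

/-- the Hermitian source group of `f` is `G` -/
def SourceGroup {n N : ℕ} (f : RSM n N) (G : Subgroup (V n ≃ₗᵢ[ℂ] V n)) : Prop :=
  ∀ γ : V n → V n, InGamma f γ ↔ ∃ U ∈ G, ∀ z ∈ Bn n, γ z = U z

/-- the degrees of the rational sphere maps with source group `G` -/
def Degs {n : ℕ} (G : Subgroup (V n ≃ₗᵢ[ℂ] V n)) : Set ℕ :=
  {d | ∃ (N : ℕ) (f : RSM n N), f.deg = d ∧ SourceGroup f G}

/-- On the polynomials of degree at most `k`, `U` acts as a linear combination of elements of `G`. -/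
def Comb {n : ℕ} (k : ℕ) (G : Subgroup (V n ≃ₗᵢ[ℂ] V n)) [Fintype G] (U : V n ≃ₗᵢ[ℂ] V n) (c : G → ℂ) : Prop :=
  ∀ P : MvPolynomial (Fin n) ℂ, P.totalDegree ≤ k → ∀ z : V n, ev P (U z) = ∑ g : G, c g * ev P (g.1 z)

/-- The elements of `G` are the only unitary maps which act on the polynomials of degree at most `k` as
linear combinations of elements of `G`. -/
def Sep {n : ℕ} (k : ℕ) (G : Subgroup (V n ≃ₗᵢ[ℂ] V n)) [Fintype G] : Prop :=
  ∀ U : V n ≃ₗᵢ[ℂ] V n, (∃ c : G → ℂ, Comb k G U c) → U ∈ G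

/-! ### Auxiliary notions of the proof -/

/-- `u` is a sesquilinear polynomial kernel, of degree at most `k` in `z` and at most `l` in `w̄` -/
def Ker {n : ℕ} (k l : ℕ) (u : V n → V n → ℂ) : Prop :=
  ∃ (m : ℕ) (a b : Fin m → MvPolynomial (Fin n) ℂ),
    (∀ i, (a i).totalDegree ≤ k ∧ (b i).totalDegree ≤ l) ∧ ∀ z w, u z w = ∑ i, ev (a i) z * conj (ev (b i) w)

/-- the same, homogeneous of degree `k` in `z` and of degree `l` in `w̄` -/
def HKer {n : ℕ} (k l : ℕ) (u : V n → V n → ℂ) : Prop :=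
  ∃ (m : ℕ) (a b : Fin m → MvPolynomial (Fin n) ℂ),
    (∀ i, (a i).IsHomogeneous k ∧ (b i).IsHomogeneous l) ∧ ∀ z w, u z w = ∑ i, ev (a i) z * conj (ev (b i) w)

/-- Hermitian kernels -/
def Herm {n : ℕ} (u : V n → V n → ℂ) : Prop := ∀ z w, u w z = conj (u z w)

/-- invariant kernels -/
def Inv {n : ℕ} (u : V n → V n → ℂ) (U : V n ≃ₗᵢ[ℂ] V n) : Prop := ∀ z w, u (U z) (U w) = u z w

/-- kernels of degrees at most `k`, all of whose components of bidegree `(0,1)`, `(1,0)` and `(1,1)` vanish -/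
def AKer {n : ℕ} (k : ℕ) (u : V n → V n → ℂ) : Prop :=
  ∃ v : ℕ → ℕ → V n → V n → ℂ, (∀ i j, HKer i j (v i j)) ∧ v 0 1 = 0 ∧ v 1 0 = 0 ∧ v 1 1 = 0 ∧
    ∀ z w, u z w = ∑ i ∈ Finset.range (k + 1), ∑ j ∈ Finset.range (k + 1), v i j z w

/-- the basic kernel -/
noncomputable def u0 {n : ℕ} (k : ℕ) (z w : V n) : ℂ :=
  ∑ j ∈ Finset.range (k + 1), (1 / ((j : ℂ) + 2)) * hp z w ^ j

/-- A representation of the unitary group on a real Euclidean space `E`, differentiable at `1`. -/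
structure Rep (n : ℕ) (E : Type) [NormedAddCommGroup E] [InnerProductSpace ℝ E] where
  /-- the representation -/
  ρ : (V n ≃ₗᵢ[ℂ] V n) →* (E ≃ₗᵢ[ℝ] E)
  /-- its derivative -/
  D : (V n →L[ℂ] V n) →ₗ[ℝ] (E →ₗ[ℝ] E)
  /-- a constant -/
  C : ℝ
  hC : 0 ≤ C
  hD : ∀ (U : V n ≃ₗᵢ[ℂ] V n) (x : E),
    ‖ρ U x - x - D ((U : V n →L[ℂ] V n) - ContinuousLinearMap.id ℂ (V n)) x‖
      ≤ C * ‖(U : V n →L[ℂ] V n) - ContinuousLinearMap.id ℂ (V n)‖ ^ 2 * ‖x‖

/-- `U` commutes with `h` -/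
def Cm {n : ℕ} (h : V n →L[ℂ] V n) (U : V n ≃ₗᵢ[ℂ] V n) : Prop := ∀ z, h (U z) = U (h z)

/-- `h` is a self-adjoint operator which commutes with `G`, and every operator which commutes with `G` and `h`
commutes with all operators which commute with `h`. -/
structure Good {n : ℕ} (G : Subgroup (V n ≃ₗᵢ[ℂ] V n)) (h : V n →L[ℂ] V n) : Prop where
  sa : ∀ z w, hp (h z) w = hp z (h w)
  cm : ∀ U ∈ G, Cm h U
  mx : ∀ Y : V n →L[ℂ] V n, (∀ U ∈ G, ∀ z, Y (U z) = U (Y z)) → Y ∘L h = h ∘L Y →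
    ∀ Z : V n →L[ℂ] V n, Z ∘L h = h ∘L Z → Z ∘L Y = Y ∘L Z

end Pool.Agent.H741.RS
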