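import Pool.Agent.H741.RS.Defs

/-!
# Project RS: the case of one variable
-/

set_option autoImplicit false
open Polynomial

namespace Pool.Agent.H741.RS

/-- multiplication by a number of modulus one -/
noncomputable def rot (n : ℕ) (u : ℂ) (hu : ‖u‖ = 1) : V n ≃ₗᵢ[ℂ] V n :=
  { LinearEquiv.smulOfNeZero ℂ (V n) u (by rintro rfl; simp at hu) with
    norm_map' := fun x => by
      show ‖u • x‖ = ‖x‖
      rw [norm_smul, hu, one_mul] }

theorem rot_apply (n : ℕ) (u : ℂ) (hu : ‖u‖ = 1) (z : V n) : rot n u hu z = u • z := rfl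

/-- in one variable a unitary map is a multiplication -/
theorem mul1 (g : V 1 ≃ₗᵢ[ℂ] V 1) : ∃ u : ℂ, ‖u‖ = 1 ∧ ∀ z, g z = u • z := by
  have hz : ∀ z : V 1, z = (z 0) • (EuclideanSpace.single 0 (1 : ℂ) : V 1) := by
    intro z
    ext i
    fin_cases i
    simp
  set e : V 1 := EuclideanSpace.single 0 (1 : ℂ) with he
  have hn : ‖e‖ = 1 := by simp [he]
  have h1 : g e = (g e 0) • e := hz (g e)
  refine ⟨g e 0, ?_, fun z => ?_⟩
  · have h2 : ‖g e‖ = 1 := by rw [g.norm_map, hn]
    rw [h1, norm_smul, hn, mul_one] at h2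
    exact h2
  · calc g z = g ((z 0) • e) := by rw [← hz z]
      _ = (z 0) • ((g e 0) • e) := by rw [map_smul, ← h1]
      _ = (g e 0) • ((z 0) • e) := smul_comm _ _ _
      _ = (g e 0) • z := by rw [← hz z]

theorem sep_card (G : Subgroup (V 1 ≃ₗᵢ[ℂ] V 1)) [Fintype G] (k : ℕ) (hk : Sep k G) : Fintype.card G ≤ k := by
  classical
  by_contra hlt
  push Not at hlt
  choose ζ hζ1 hζ2 using fun g : G => mul1 g.1
  have hinj : Function.Injective ζ := by
    intro a b hab
    apply Subtype.ext
    ext z i
    rw [hζ2 a, hζ2 b, hab]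
  -- a number of modulus one which is not one of the `ζ g`
  have hinf : (Metric.sphere (0 : ℂ) 1).Infinite := by
    apply Set.infinite_of_injective_forall_mem (f := fun m : ℕ => Complex.exp (Complex.I * (m : ℂ)))
    · intro a b hab
      simp only at hab
      rw [Complex.exp_eq_exp_iff_exists_int] at hab
      obtain ⟨m, hm⟩ := hab
      have h1 : (a : ℂ) = b + m * (2 * Real.pi) := by
        have h2 : Complex.I * (a : ℂ) = Complex.I * (b + m * (2 * Real.pi)) := by rw [hm]; ring
        exact mul_left_cancel₀ Complex.I_ne_zero h2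
      have h3 : (a : ℝ) = b + m * (2 * Real.pi) := by exact_mod_cast h1
      rcases eq_or_ne m 0 with h0 | h0
      · rw [h0] at h3
        simp at h3
        exact h3
      · exfalso
        have h4 : Real.pi = ((a : ℚ) - b) / (2 * m : ℚ) := by
          have hm' : (m : ℝ) ≠ 0 := by exact_mod_cast h0
          push_cast
          field_simp
          linarith
        exact irrational_pi ⟨((a : ℚ) - b) / (2 * m), by rw [h4]; push_cast; ring⟩
    · intro m
      simp [Complex.norm_exp]
  obtain ⟨u, hu, hun⟩ := hinf.exists_notMem_finset (Finset.univ.image ζ)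
  have hu1 : ‖u‖ = 1 := by simpa using hu
  have hmem : rot 1 u hu1 ∈ G := by
    apply hk
    refine ⟨fun g => (Lagrange.basis Finset.univ ζ g).eval u, fun P hP z => ?_⟩
    set Q : ℂ[X] := MvPolynomial.aeval (fun i => Polynomial.C (z i) * Polynomial.X) P with hQ
    have hQe : ∀ t : ℂ, Q.eval t = ev P (t • z) := by
      intro t
      rw [hQ, ← Polynomial.coe_evalRingHom, MvPolynomial.map_aeval]
      unfold ev MvPolynomial.eval
      have e1 : (Polynomial.evalRingHom t).comp (algebraMap ℂ ℂ[X]) = RingHom.id ℂ := by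
        ext x; simp
      have e2 : (fun i : Fin 1 => (Polynomial.evalRingHom t) (Polynomial.C (z i) * Polynomial.X)) =
          fun i => (t • z) i := by
        funext i
        show Polynomial.eval t (Polynomial.C (z i) * Polynomial.X) = t * z i
        rw [Polynomial.eval_mul, Polynomial.eval_C, Polynomial.eval_X, mul_comm]
      rw [e1, e2]
    have hdeg : Q.natDegree ≤ k * 1 := by
      rw [hQ]
      exact MvPolynomial.aeval_natDegree_le P hP _ fun i => by
        exact (Polynomial.natDegree_C_mul_le _ _).trans Polynomial.natDegree_X_le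
    have hdeg' : Q.degree < (Finset.univ : Finset G).card := by
      refine lt_of_le_of_lt Polynomial.degree_le_natDegree ?_
      rw [Finset.card_univ]
      exact_mod_cast (by omega)
    have hint := Lagrange.eq_interpolate (s := (Finset.univ : Finset G)) (v := ζ) hinj.injOn hdeg'
    rw [rot_apply, ← hQe]
    conv_lhs => rw [hint]
    rw [Lagrange.interpolate_apply, Polynomial.eval_finsetSum]
    refine Finset.sum_congr rfl fun g _ => ?_
    rw [Polynomial.eval_mul, Polynomial.eval_C, hQe, ← hζ2 g, mul_comm]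
  apply hun
  rw [Finset.mem_image]
  refine ⟨⟨_, hmem⟩, Finset.mem_univ _, ?_⟩
  have h1 := hζ2 ⟨_, hmem⟩ (EuclideanSpace.single 0 (1 : ℂ))
  have h2 := congrFun (congrArg (fun x : V 1 => (x : Fin 1 → ℂ)) h1) 0
  simp [rot_apply] at h2
  exact h2.symm

end Pool.Agent.H741.RS
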