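import Pool.Agent.H741.RS.Stm2
import Pool.Agent.H741.RS.Asm
import Pool.Agent.H741.RS.Ex
import Pool.Agent.H5.RS.PRES
import Pool.Agent.H100.RS.UNIT
import Pool.Agent.H789.RS.GLUE
import Pool.Agent.H104.RS.TOG
import Pool.Agent.H747.RS.UFD
import Pool.Agent.H296.RS.POW
import Pool.Agent.H928.RS.KCL
import Pool.Agent.H6.RS.PID
import Pool.Agent.H56.RS.ADJ
import Pool.Agent.H92.RS.KINV
import Pool.Agent.H415.RS.INVF
import Pool.Agent.H147.RS.LOW1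
import Pool.Agent.H205.RS.CAY
import Pool.Agent.H235.RS.DEG2
import Pool.Agent.H379.RS.GOOD
import Pool.Agent.H727.RS.EQUI
import Pool.Agent.H772.RS.QUAD
import Pool.Agent.H260.RS.SLICE
import Pool.Agent.H315.RS.MISS
import Pool.Agent.H788.RS.BIC
import Pool.Agent.H20.RS.GEN
import Pool.Agent.H53.RS.POS
import Pool.Agent.H553.RS.MIN
import Pool.Agent.H505.RS.BIG
import Pool.Agent.H729.RS.MKF
import Pool.Agent.H86.RS.UP
import Pool.Agent.H903.RS.KG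
import Pool.Agent.H127.RS.REPD
import Pool.Agent.H397.RS.EXT
import Pool.Agent.H578.RS.DIVI
import Pool.Agent.H906.RS.REPE
import Pool.Agent.H66.RS.TAY
import Pool.Agent.H130.RS.LAM
import Pool.Agent.H224.RS.DIST

/-!
# Project RS: the main theorem
-/

set_option autoImplicit false

namespace Pool.Agent.H741.RS

theorem main (n : ℕ) (hn : 1 ≤ n) (G : Subgroup (V n ≃ₗᵢ[ℂ] V n)) [Fintype G] :
    ∃ k : ℕ, 1 ≤ k ∧ k ≤ Fintype.card G ∧ IsLeast {k | Sep k G} k ∧ IsLeast (Degs G) (1 + max 2 k) := by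
  have hDIST : S_DIST := Pool.Agent.H224.RS.DIST.t_DIST
  have hEXT : S_EXT := t_EXT
  have hDIVI : S_DIVI := Pool.Agent.H578.RSD.t_DIVI Pool.Agent.H928.RS.t_KCL Pool.Agent.H6.RS.t_PID
  have hREPE : S_REPE := Pool.Agent.H906.RS.t_REPE
  have hTAY : S_TAY := Pool.Agent.H66.RS.TAY.t_TAY
  have hPRES : S_PRES := Pool.Agent.H5.RS.t_PRES
  have hUNIT : S_UNIT := Pool.Agent.H100.RS.t_UNIT
  have hGLUE : S_GLUE := Pool.Agent.H789.RS.GLUE.t_GLUE hPRES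
  have hTOG : S_TOG := Pool.Agent.H104.RSTOG.t_TOG hEXT hPRES
  have hUFD : S_UFD := Pool.Agent.H747.RS.t_UFD
  have hPOW : S_POW := Pool.Agent.H296.RS.t_POW
  have hKCL : S_KCL := Pool.Agent.H928.RS.t_KCL
  have hPID : S_PID := Pool.Agent.H6.RS.t_PID
  have hADJ : S_ADJ := Pool.Agent.H56.RS.t_ADJ hPOW
  have hKINV : S_KINV := Pool.Agent.H92.RS.t_KINV hADJ
  have hLAM : S_LAM := Pool.Agent.H130.RS.t_LAM hUFD hPRES
  have hINVF : S_INVF := Pool.Agent.H415.RS.t_INVF hUFD hPRES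
  have hLOW1 : S_LOW1 := Pool.Agent.H147.RS.t_LOW1 hDIVI hINVF hPID hKCL hKINV hTOG
  have hCAY : S_CAY := Pool.Agent.H205.RS.CAY.t_CAY
  have hDEG2 : S_DEG2 := Pool.Agent.H235.RS.t_DEG2 hDIVI hCAY hTOG hGLUE hPRES
  have hGOOD : S_GOOD := Pool.Agent.H379.RS.t_GOOD
  have hEQUI : S_EQUI := Pool.Agent.H727.RS.t_EQUI
  have hQUAD : S_QUAD := Pool.Agent.H772.RS.t_QUAD hEQUI
  have hSLICE : S_SLICE := Pool.Agent.H260.RS.t_SLICE hDIST hEQUI hQUAD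
  have hMISS : S_MISS := Pool.Agent.H315.RS.t_MISS hKCL
  have hBIC : S_BIC := t_BIC
  have hREPD : S_REPD := Pool.Agent.H127.RS.t_REPD hTAY
  have hREPK : S_REPK := repk hREPE hREPD
  have hGEN : S_GEN := t_GEN hGOOD hSLICE hREPK hMISS hBIC
  have hPOS : S_POS := Pool.Agent.H53.RS.t_POS hKCL
  have hMIN : S_MIN := Pool.Agent.H553.RS.t_MIN
  have hBIG : S_BIG := t_BIG
  have hMKF : S_MKF := Pool.Agent.H729.RS.t_MKF
  have hUP : S_UP := Pool.Agent.H86.RS.t_UP hGEN hPOS hMIN hBIG hMKF hLAM hPRES hUNIT hTOG hPID hKCL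
  have hKG : S_KG := Pool.Agent.H903.RS.t_KG
  exact asm hLOW1 hDEG2 hUP hKG n hn G

theorem main1
    (G : Subgroup (V 1 ≃ₗᵢ[ℂ] V 1)) [Fintype G] : IsLeast (Degs G) (1 + max 2 (Fintype.card G)) := by
  obtain ⟨k, -, h2, h3, h4⟩ := main 1 le_rfl G
  have h5 := sep_card G k h3.1
  have h6 : k = Fintype.card G := le_antisymm h2 h5
  rw [← h6]
  exact h4

end Pool.Agent.H741.RS
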