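import Pool.Agent.H741.RS.Defs

/-!
# Project RS: the definitions of the final statement

The unitary group of `ℂⁿ` and the notions of `Pool.Agent.H741.RS.Defs` for its subgroups.
-/

set_option autoImplicit false

namespace Pool.Agent.H741.RS

/-- the set of the unitary maps of `ℂⁿ` (surjective complex linear isometries) -/
def UU (n : ℕ) : Type := V n ≃ₗᵢ[ℂ] V n

/-- the group structure of `UU n`, given by the composition of maps -/
noncomputable instance instGroupUU (n : ℕ) : Group (UU n) := inferInstanceAs (Group (V n ≃ₗᵢ[ℂ] V n))

/-- the value of the unitary map `U` at `z` -/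
noncomputable def UU.at {n : ℕ} (U : UU n) (z : V n) : V n := DFunLike.coe (F := V n ≃ₗᵢ[ℂ] V n) U z

/-- the Hermitian source group of the rational sphere map `f` is `G`: the elements of the source group are
exactly the maps which agree with an element of `G` on the ball -/
def SourceG {n N : ℕ} (f : RSM n N) (G : Subgroup (UU n)) : Prop :=
  ∀ γ : V n → V n, InGamma f γ ↔ ∃ U ∈ G, ∀ z ∈ Bn n, γ z = U.at z

/-- the degrees of the rational sphere maps, with any target dimension `N`, with source group `G` -/
def DegsG {n : ℕ} (G : Subgroup (UU n)) : Set ℕ :=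
  {d | ∃ (N : ℕ) (f : RSM n N), f.deg = d ∧ SourceG f G}

/-- On the polynomials of degree at most `k`, `U` acts as the linear combination of the elements of the
finite group `G` with the coefficients `c`. -/
def CombG {n : ℕ} (k : ℕ) (G : Subgroup (UU n)) [Fintype G] (U : UU n) (c : G → ℂ) : Prop :=
  ∀ P : MvPolynomial (Fin n) ℂ, P.totalDegree ≤ k → ∀ z : V n,
    ev P (U.at z) = ∑ g : G, c g * ev P (UU.at g.1 z)

/-- The elements of `G` are the only unitary maps which act on the polynomials of degree at most `k` as
linear combinations of elements of `G`. -/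
def SepG {n : ℕ} (k : ℕ) (G : Subgroup (UU n)) [Fintype G] : Prop :=
  ∀ U : UU n, (∃ c : G → ℂ, CombG k G U c) → U ∈ G

end Pool.Agent.H741.RS
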