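import Pool.Agent.H741.RS.Fin
import Pool.Agent.H741.RS.Pub

/-!
# Project RS: the main theorem, final form
-/

set_option autoImplicit false

namespace Pool.Agent.H741.RS

theorem mainG (n : ℕ) (hn : 1 ≤ n) (G : Subgroup (UU n)) [iG : Fintype G] :
    ∃ k : ℕ, 1 ≤ k ∧ k ≤ Fintype.card G ∧ IsLeast {k | SepG k G} k ∧ IsLeast (DegsG G) (1 + max 2 k) :=
  @main n hn G iG

theorem mainG1 (G : Subgroup (UU 1)) [iG : Fintype G] : IsLeast (DegsG G) (1 + max 2 (Fintype.card G)) :=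
  @main1 G iG

end Pool.Agent.H741.RS
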