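import Pool.Agent.H741.RS.FinM
import Pool.Agent.H348.RS.HOLA
import Pool.Agent.H264.RS.MAT
import Pool.Agent.H138.RS.HOLB

/-!
# Project RS: the main theorem for holomorphic automorphisms and matrices
-/

set_option autoImplicit false

namespace Pool.Agent.H741.RS

theorem finalM (n : ℕ) (hn : 1 ≤ n) (G : FinU n) :
    ∃ k : ℕ, 1 ≤ k ∧ k ≤ G.el.card ∧ IsLeast {k | SepM k G} k ∧ IsLeast (DegsM G) (1 + max 2 k) :=
  mainM (Pool.Agent.H348.RS.HOLA.t_HOLA Pool.Agent.H5.RS.t_PRES)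
    (Pool.Agent.H138.RS.HOLB.t_HOLB Pool.Agent.H5.RS.t_PRES t_EXT) Pool.Agent.H264.RS.MAT.t_MAT n hn G

theorem finalM1 (G : FinU 1) : IsLeast (DegsM G) (1 + max 2 G.el.card) :=
  mainM1 (Pool.Agent.H348.RS.HOLA.t_HOLA Pool.Agent.H5.RS.t_PRES)
    (Pool.Agent.H138.RS.HOLB.t_HOLB Pool.Agent.H5.RS.t_PRES t_EXT) Pool.Agent.H264.RS.MAT.t_MAT G

end Pool.Agent.H741.RS
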