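import Pool.Agent.H741.RS.Fin
import Pool.Agent.H741.RS.PubM

/-!
# Project RS: transfer of the main theorem to holomorphic automorphisms and matrices
-/

set_option autoImplicit false

namespace Pool.Agent.H741.RS

section

variable {n : ℕ} (φ : (Matrix.unitaryGroup (Fin n) ℂ) ≃* (V n ≃ₗᵢ[ℂ] V n))

theorem inv_unitary {A : Matrix (Fin n) (Fin n) ℂ} (hA : A ∈ Matrix.unitaryGroup (Fin n) ℂ) : A⁻¹ = star A := by
  have h := Matrix.mem_unitaryGroup_iff'.1 hA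
  exact Matrix.inv_eq_left_inv h

/-- the group of isometries given by a finite group of matrices -/
def toSub (G : FinU n) : Subgroup (V n ≃ₗᵢ[ℂ] V n) where
  carrier := {U | (φ.symm U).1 ∈ G.el}
  one_mem' := by
    show (φ.symm 1).1 ∈ G.el
    rw [map_one]
    exact G.one_mem
  mul_mem' := by
    intro U W hU hW
    show (φ.symm (U * W)).1 ∈ G.el
    rw [map_mul]
    exact G.mul_mem _ hU _ hW
  inv_mem' := by
    intro U hU
    show (φ.symm U⁻¹).1 ∈ G.el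
    rw [map_inv]
    have h1 : ((φ.symm U)⁻¹).1 = star (φ.symm U).1 := rfl
    rw [h1, ← inv_unitary (φ.symm U).2]
    exact G.inv_mem _ hU

theorem mem_toSub (G : FinU n) (U : V n ≃ₗᵢ[ℂ] V n) : U ∈ toSub φ G ↔ (φ.symm U).1 ∈ G.el := Iff.rfl

/-- the elements of the two groups -/
noncomputable def eqv (G : FinU n) : toSub φ G ≃ {A // A ∈ G.el} where
  toFun U := ⟨(φ.symm U.1).1, U.2⟩
  invFun A := ⟨φ ⟨A.1, G.unitary _ A.2⟩, by
    show (φ.symm (φ _)).1 ∈ G.el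
    rw [MulEquiv.symm_apply_apply]
    exact A.2⟩
  left_inv U := by
    apply Subtype.ext
    show φ ⟨(φ.symm U.1).1, _⟩ = U.1
    have : (⟨(φ.symm U.1).1, G.unitary _ U.2⟩ : Matrix.unitaryGroup (Fin n) ℂ) = φ.symm U.1 := rfl
    rw [this, MulEquiv.apply_symm_apply]
  right_inv A := by
    apply Subtype.ext
    show (φ.symm (φ _)).1 = A.1
    rw [MulEquiv.symm_apply_apply]

noncomputable instance instFintypeToSub (G : FinU n) : Fintype (toSub φ G) := Fintype.ofEquiv _ (eqv φ G).symm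

theorem card_toSub (G : FinU n) : Fintype.card (toSub φ G) = G.el.card := by
  rw [Fintype.card_congr (eqv φ G), Fintype.card_coe]

variable (hφ : ∀ A z, φ A z = mv A.1 z)

include hφ

theorem sum_toSub (G : FinU n) (c : Matrix (Fin n) (Fin n) ℂ → ℂ) (P : MvPolynomial (Fin n) ℂ) (z : V n) :
    ∑ A ∈ G.el, c A * ev P (mv A z) = ∑ g : toSub φ G, c (φ.symm g.1).1 * ev P (g.1 z) := by
  rw [← Finset.sum_coe_sort G.el (fun A => c A * ev P (mv A z))]
  rw [← Equiv.sum_comp (eqv φ G) (fun A : {A // A ∈ G.el} => c A.1 * ev P (mv A.1 z))]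
  refine Finset.sum_congr rfl fun g _ => ?_
  have h1 : g.1 z = mv (φ.symm g.1).1 z := by
    rw [← hφ, MulEquiv.apply_symm_apply]
  rw [h1]
  rfl

theorem comb_iff (k : ℕ) (G : FinU n) (A : Matrix.unitaryGroup (Fin n) ℂ) :
    CombM k G A.1 ↔ ∃ c : toSub φ G → ℂ, Comb k (toSub φ G) (φ A) c := by
  classical
  constructor
  · rintro ⟨c, hc⟩
    refine ⟨fun g => c (φ.symm g.1).1, fun P hP z => ?_⟩
    rw [hφ, hc P hP z, sum_toSub φ hφ]
  · rintro ⟨c, hc⟩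
    refine ⟨fun B => if hB : B ∈ G.el then c ((eqv φ G).symm ⟨B, hB⟩) else 0, fun P hP z => ?_⟩
    rw [← hφ, hc P hP z, sum_toSub φ hφ]
    refine Finset.sum_congr rfl fun g _ => ?_
    rw [dif_pos ((mem_toSub φ G g.1).1 g.2)]
    congr 2
    exact ((eqv φ G).symm_apply_apply g).symm

theorem sep_iff (k : ℕ) (G : FinU n) : SepM k G ↔ Sep k (toSub φ G) := by
  constructor
  · intro h U hU
    rw [mem_toSub]
    refine h _ (φ.symm U).2 ((comb_iff φ hφ k G (φ.symm U)).2 ?_)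
    rwa [MulEquiv.apply_symm_apply]
  · intro h A hA hc
    have h1 := h (φ ⟨A, hA⟩) ((comb_iff φ hφ k G ⟨A, hA⟩).1 hc)
    rw [mem_toSub, MulEquiv.symm_apply_apply] at h1
    exact h1

theorem degs_eq (h1 : S_HOLA) (h2 : S_HOLB) (G : FinU n) : DegsM G = Degs (toSub φ G) := by
  have hA : ∀ (m : ℕ) (γ : V m → V m), HolAut γ ↔ IsAut γ := fun m γ => ⟨h2 m γ, h1 m γ⟩
  have hS : ∀ (N : ℕ) (f : RSM n N) (γ : V n → V n), InSource f γ ↔ InGamma f γ := by
    intro N f γ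
    unfold InSource InGamma
    rw [hA]
    constructor
    · rintro ⟨a, ψ, b, c⟩
      exact ⟨a, ψ, (hA _ _).1 b, c⟩
    · rintro ⟨a, ψ, b, c⟩
      exact ⟨a, ψ, (hA _ _).2 b, c⟩
  have hE : ∀ γ : V n → V n, (∃ A ∈ G.el, ∀ z ∈ Bn n, γ z = mv A z) ↔
      ∃ U ∈ toSub φ G, ∀ z ∈ Bn n, γ z = U z := by
    intro γ
    constructor
    · rintro ⟨A, hAG, h⟩
      refine ⟨φ ⟨A, G.unitary _ hAG⟩, ?_, fun z hz => ?_⟩
      · rw [mem_toSub, MulEquiv.symm_apply_apply]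
        exact hAG
      · rw [h z hz, hφ]
    · rintro ⟨U, hU, h⟩
      refine ⟨(φ.symm U).1, hU, fun z hz => ?_⟩
      rw [h z hz, ← hφ, MulEquiv.apply_symm_apply]
  have hG : ∀ (N : ℕ) (f : RSM n N), SourceIs f G ↔ SourceGroup f (toSub φ G) := by
    intro N f
    unfold SourceIs SourceGroup
    exact forall_congr' fun γ => by rw [hS, hE]
  ext d
  constructor
  · rintro ⟨N, f, hd, hf⟩
    exact ⟨N, f, hd, (hG N f).1 hf⟩
  · rintro ⟨N, f, hd, hf⟩
    exact ⟨N, f, hd, (hG N f).2 hf⟩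

end

theorem mainM (h1 : S_HOLA) (h2 : S_HOLB) (h3 : S_MAT) (n : ℕ) (hn : 1 ≤ n) (G : FinU n) :
    ∃ k : ℕ, 1 ≤ k ∧ k ≤ G.el.card ∧ IsLeast {k | SepM k G} k ∧ IsLeast (DegsM G) (1 + max 2 k) := by
  obtain ⟨φ, hφ⟩ := h3 n
  obtain ⟨k, k1, k2, k3, k4⟩ := main n hn (toSub φ G)
  refine ⟨k, k1, (card_toSub φ G) ▸ k2, ?_, ?_⟩
  · have e : {k | SepM k G} = {k | Sep k (toSub φ G)} := by
      ext j
      exact sep_iff φ hφ j G
    rw [e]
    exact k3
  · rw [degs_eq φ hφ h1 h2]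
    exact k4

theorem mainM1 (h1 : S_HOLA) (h2 : S_HOLB) (h3 : S_MAT) (G : FinU 1) :
    IsLeast (DegsM G) (1 + max 2 G.el.card) := by
  obtain ⟨φ, hφ⟩ := h3 1
  rw [degs_eq φ hφ h1 h2, ← card_toSub φ G]
  exact main1 (toSub φ G)

end Pool.Agent.H741.RS
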