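import Pool.Agent.H741.RS.Stm

/-!
# Project RS: the task REPK split in two
-/

set_option autoImplicit false
open scoped ComplexConjugate

namespace Pool.Agent.H741.RS

/-- the data of `S_REPK` without the derivative -/
structure KRep (n k : ℕ) (E : Type) [NormedAddCommGroup E] [InnerProductSpace ℝ E] where
  /-- the representation -/
  ρ : (V n ≃ₗᵢ[ℂ] V n) →* (E ≃ₗᵢ[ℝ] E)
  /-- the kernels -/
  κ : E →ₗ[ℝ] (V n → V n → ℂ)
  inj : Function.Injective κ
  herm : ∀ x, Herm (κ x) ∧ AKer k (κ x)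
  surj : ∀ u : V n → V n → ℂ, Herm u → AKer k u → ∃ x, κ x = u
  equi : ∀ (U : V n ≃ₗᵢ[ℂ] V n) (x : E) (z w : V n), κ (ρ U x) (U z) (U w) = κ x z w

/-- Proof: `E` = the real vector space of the Hermitian kernels `u` with `AKer k u` (finite-dimensional: it is contained in the complex span of the
kernels `z^α conj(w)^β`, `|α|, |β| ≤ k`), `(ρ(U)u)(z,w) = u(U⁻¹z, U⁻¹w)`, with the scalar product `Re ∫∫ u(z,w) conj(v(z,w)) dz dw` over the product of two unit balls (unitary maps preserve
the volume; positive since a polynomial kernel vanishing on the balls is zero). Any other invariant scalar product will do. -/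
def S_REPE : Prop := ∀ n k : ℕ, ∃ (E : Type) (_ : NormedAddCommGroup E) (_ : InnerProductSpace ℝ E)
  (_ : FiniteDimensional ℝ E), Nonempty (KRep n k E)

/-- Taylor expansion of a kernel. Proof: `u` is a sum of products of polynomials in `z` and conjugates of polynomials in `w`; `L z w (a, b)` is the (real) derivative of `u` at `(z,w)`
in the direction `(a,b)`; the second derivatives are bounded on bounded sets. The last clause: if `u` is a Hermitian kernel with `AKer k u` then so is the derivative in the direction `(T z, T w)`, for every linear `T`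
(the derivative in the direction `T z` of a homogeneous polynomial is a homogeneous polynomial of the same degree, `∑ ∂_i P · (T z)_i`). -/
def S_TAY : Prop := ∀ (n k : ℕ) (u : V n → V n → ℂ), Herm u → AKer k u →
  ∃ (L : V n → V n → (V n × V n →ₗ[ℝ] ℂ)) (C : ℝ), 0 ≤ C ∧
    (∀ z w a b : V n, ‖a‖ ≤ 4 * ‖z‖ → ‖b‖ ≤ 4 * ‖w‖ →
      ‖u (z + a) (w + b) - u z w - L z w (a, b)‖ ≤ C * (‖a‖ + ‖b‖) ^ 2 * (1 + ‖z‖ + ‖w‖) ^ (2 * k)) ∧
    ∀ T : V n →L[ℂ] V n, Herm (fun z w => L z w (T z, T w)) ∧ AKer k (fun z w => L z w (T z, T w))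

/-- Existence of the derivative. Proof: take a basis `x_i` of `E`, `u_i = κ x_i` and `L_i`, `C_i` from `S_TAY`; put `D(T) x_i` = the element of `E` whose kernel is `- L_i z w (T z, T w)` (`surj`), extended linearly; it is
linear in `T` as `κ` is injective. For unitary `U` and `T = U - 1`: `(κ (ρ(U) x))(z,w) = κ x (U⁻¹ z, U⁻¹ w)`, `U⁻¹z = z + a`, `a = U⁻¹z - z = -T z + (1 - U⁻¹) T z`, so `‖a + T z‖ ≤ ‖T‖² ‖z‖`, `‖a‖ ≤ ‖T‖ ‖z‖ ≤ 2 ‖z‖`.
So for each `(z,w)` the value of the kernel of `ρ(U)x_i - x_i - D(T)x_i` at `(z,w)` is `O(‖T‖²)`. Choose finitely many points `(z_j, w_j)` such that `x ↦ (κ x z_j w_j)_j` is injective on `E`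
(possible as `κ` is injective and `E` finite-dimensional); then `‖x‖ ≤ K max_j |κ x z_j w_j|`, which gives the estimate in the norm of `E`. -/
def S_REPD : Prop := ∀ (n k : ℕ) (E : Type) (_ : NormedAddCommGroup E) (_ : InnerProductSpace ℝ E)
  (_ : FiniteDimensional ℝ E) (R : KRep n k E), ∃ R' : Rep n E, R'.ρ = R.ρ

/-- assembly of `S_REPK` -/
theorem repk (h1 : S_REPE) (h2 : S_REPD) : S_REPK := by
  intro n k
  obtain ⟨E, i1, i2, i3, ⟨R⟩⟩ := h1 n k
  obtain ⟨R', hR⟩ := h2 n k E i1 i2 i3 R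
  refine ⟨E, i1, i2, i3, R', R.κ, R.inj, R.herm, R.surj, fun U x z w => ?_⟩
  rw [hR]
  exact R.equi U x z w

end Pool.Agent.H741.RS
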